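import Pool.Agent.Lib.MP_5bde83_ag.FlatChart
import Pool.Agent.Lib.MP_5bde83_ag.FlatRoots
import Pool.Agent.Lib.MP_5bde83_ag.FlatField

/-!
# Dual webs of convex pre-foliations are flat

For every convex pre-foliation `C ⊠ F` on the complex projective plane, of degree `n + k ≥ 3` and
co-degree `k` (`F` a convex foliation of degree `n ≥ 1`, `C` a reduced `F`-invariant curve of
degree `k`), the dual web `Leg (C ⊠ F)` is flat.
-/

namespace Pool.Agent.Results.MP_5bde83_ag.Flatness

open Polynomial

noncomputable section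

/-! ### Convex pre-foliations -/

/-- A foliation of degree `n` on the complex projective plane, given by the homogeneous 1-form
`ω 0 dx + ω 1 dy + ω 2 dz`: the coefficients are homogeneous of degree `n + 1`, have no common
factor, and `x ω 0 + y ω 1 + z ω 2 = 0`. -/
structure IsFoliation (n : ℕ) (ω : Fin 3 → MvPolynomial (Fin 3) ℂ) : Prop where
  homogeneous : ∀ j, (ω j).IsHomogeneous (n + 1)
  euler : ∑ j, MvPolynomial.X j * ω j = 0
  coprime : ∀ d, (∀ j, d ∣ ω j) → IsUnit d

/-- The linear form `ω(p)`, that is the tangent line of the foliation at a nonsingular point `p`,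
as vector of coefficients. The point `p` is singular if this is zero. -/
def form (ω : Fin 3 → MvPolynomial (Fin 3) ℂ) (p : Fin 3 → ℂ) : Fin 3 → ℂ :=
  fun j => MvPolynomial.eval p (ω j)

/-- The line `{p : l 0 p 0 + l 1 p 1 + l 2 p 2 = 0}` is invariant by the foliation: at each of its
points `p` the linear form `ω(p)` is a multiple of `l`. -/
def InvariantLine (ω : Fin 3 → MvPolynomial (Fin 3) ℂ) (l : Fin 3 → ℂ) : Prop :=
  l ≠ 0 ∧ ∀ p : Fin 3 → ℂ, ∑ j, l j * p j = 0 → ∃ c : ℂ, form ω p = c • l

/-- `p` is an inflection point of its leaf: `p` is not singular, and for every vector `w` of the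
tangent line of the leaf at `p` the function `t ↦ ω(p + t w)(w)`, which vanishes at `t = 0`, has
derivative `∑ w_j w_k ∂ω_j/∂x_k (p) = 0` at `t = 0`; in other words, the leaf and its tangent line
have contact of order at least 3 at `p`. -/
def InflectionPoint (ω : Fin 3 → MvPolynomial (Fin 3) ℂ) (p : Fin 3 → ℂ) : Prop :=
  form ω p ≠ 0 ∧ ∀ w : Fin 3 → ℂ, ∑ j, form ω p j * w j = 0 →
    ∑ j, ∑ k, w j * w k * MvPolynomial.eval p (MvPolynomial.pderiv k (ω j)) = 0

/-- The foliation is convex: its leaves other than lines have no inflection points, i.e. at every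
inflection point of a leaf the tangent line of the leaf is an invariant line. -/
def Convex (ω : Fin 3 → MvPolynomial (Fin 3) ℂ) : Prop :=
  ∀ p : Fin 3 → ℂ, InflectionPoint ω p → InvariantLine ω (form ω p)

/-- The curve `F = 0` is invariant by the foliation: `F` divides the coefficients of `ω ∧ dF`. -/
def InvariantCurve (ω : Fin 3 → MvPolynomial (Fin 3) ℂ) (F : MvPolynomial (Fin 3) ℂ) : Prop :=
  ∀ i j, F ∣ ω i * MvPolynomial.pderiv j F - ω j * MvPolynomial.pderiv i F

/-- `C ⊠ F` is a convex pre-foliation of degree `n + k` and co-degree `k`: the foliation `F` given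
by `ω` has degree `n` and is convex, and `C = {F = 0}` is a reduced invariant curve of degree `k`
(for `k = 0`, `F` is a nonzero constant). -/
structure ConvexPreFoliation (n k : ℕ) (ω : Fin 3 → MvPolynomial (Fin 3) ℂ)
    (F : MvPolynomial (Fin 3) ℂ) : Prop where
  foliation : IsFoliation n ω
  convex : Convex ω
  homogeneous : F.IsHomogeneous k
  reduced : Squarefree F
  invariant : InvariantCurve ω F

/-! ### The dual web -/

/-- The coordinates `p, q` of the affine chart of the dual plane in which `(p, q)` is the line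
`y = p x - q`, as elements of a field `E` containing `ℂ` with two commuting derivations
`∂/∂p`, `∂/∂q`. Examples: `ℂ(p, q)` and its finite extensions, such as the splitting field of the
web polynomial (the function field of a Galois covering on which the web is completely
decomposable); the field of germs of meromorphic functions at a point of the `(p, q)`-plane. -/
structure DualPlane (E : Type) [Field E] [Algebra ℂ E] where
  p : E
  q : E
  dp : Derivation ℂ E E
  dq : Derivation ℂ E E
  comm : ∀ z, dp (dq z) = dq (dp z)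
  dp_p : dp p = 1
  dp_q : dp q = 0
  dq_p : dq p = 0
  dq_q : dq q = 1

variable {E : Type} [Field E] [Algebra ℂ E]

/-- The point with affine coordinates `(x, p x - q)`, where `x = X` is an indeterminate, in
homogeneous coordinates; the affine chart of the plane is given by `(x, y) ↦ g (x, y, 1)`. -/
def linePoint (g : Matrix (Fin 3) (Fin 3) ℂ) (c : DualPlane E) : Fin 3 → E[X] :=
  fun i => C (algebraMap ℂ E (g i 0)) * X + C (algebraMap ℂ E (g i 1)) * (C c.p * X - C c.q) +
    C (algebraMap ℂ E (g i 2))

/-- In the affine chart `(x, y) ↦ g (x, y, 1)` the pre-foliation is `f (A dx + B dy)` with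
`f = F(g (x, y, 1))`, `A = ∑ j, g j 0 * ω j (g (x, y, 1))`, `B = ∑ j, g j 1 * ω j (g (x, y, 1))`;
this is the polynomial `f(x, p x - q) (A(x, p x - q) + p B(x, p x - q))` in `x = X`. -/
def webPolynomial (g : Matrix (Fin 3) (Fin 3) ℂ) (ω : Fin 3 → MvPolynomial (Fin 3) ℂ)
    (F : MvPolynomial (Fin 3) ℂ) (c : DualPlane E) : E[X] :=
  MvPolynomial.aeval (linePoint g c) F *
    (∑ j, C (algebraMap ℂ E (g j 0)) * MvPolynomial.aeval (linePoint g c) (ω j) +
      C c.p * ∑ j, C (algebraMap ℂ E (g j 1)) * MvPolynomial.aeval (linePoint g c) (ω j))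

/-- The coefficient of `dp ∧ dq` in the exterior derivative of the 1-form `θ.1 dp + θ.2 dq`. -/
def dForm (c : DualPlane E) (θ : E × E) : E := c.dp θ.2 - c.dq θ.1

/-- The coefficient of `dp ∧ dq` in `η ∧ θ`, for the 1-forms `η = η.1 dp + η.2 dq` and
`θ = θ.1 dp + θ.2 dq`. -/
def wedge (η θ : E × E) : E := η.1 * θ.2 - η.2 * θ.1

/-- `K dp ∧ dq` is the Blaschke curvature of the 3-web `(dq - x₁ dp) (dq - x₂ dp) (dq - x₃ dp) = 0`:
the web is given by 1-forms `θ₁, θ₂, θ₃` with `θ₁ + θ₂ + θ₃ = 0` (`θᵢ = gᵢ (dq - xᵢ dp)` with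
`gᵢ ≠ 0`), `η` is a 1-form with `dθᵢ = η ∧ θᵢ` for all `i`, and `K dp ∧ dq = dη`. -/
def IsBlaschkeCurvature (c : DualPlane E) (x : Fin 3 → E) (K : E) : Prop :=
  ∃ (g : Fin 3 → E) (η : E × E), (∀ i, g i ≠ 0) ∧
    ∑ i, ((-(g i * x i), g i) : E × E) = 0 ∧
    (∀ i, dForm c (-(g i * x i), g i) = wedge η (-(g i * x i), g i)) ∧
    K = dForm c η

/-- `x 0, ..., x (d-1)` are `d` distinct roots of the web polynomial: if `d = n + k` is its degree,
these are the slopes `dq/dp` of the leaves of the dual web through the generic point of (a covering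
of) the dual plane. -/
def IsSlopes {d : ℕ} (g : Matrix (Fin 3) (Fin 3) ℂ) (ω : Fin 3 → MvPolynomial (Fin 3) ℂ)
    (F : MvPolynomial (Fin 3) ℂ) (c : DualPlane E) (x : Fin d → E) : Prop :=
  Function.Injective x ∧ ∀ i, (webPolynomial g ω F c).eval (x i) = 0

/-- The dual web `Leg (C ⊠ F)` is flat. In every affine chart `(x, y) ↦ g (x, y, 1)` of the plane
whose line at infinity is not contained in `C`:
* over some field as above (hence over a splitting field of the web polynomial over `ℂ(p, q)`)
  the web polynomial has `n + k` distinct roots;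
* over every such field the web polynomial has degree `n + k`, and if it has `n + k` distinct
  roots, every 3-subweb of the web with slopes the roots has exactly one Blaschke curvature
  `K i j l`, and the sum of the Blaschke curvatures of the 3-subwebs is zero.

The curvature of the web is one meromorphic 2-form on the dual plane, so its vanishing in one such
chart, for one field `E` in which there are `n + k` slopes, is equivalent to flatness; here it
vanishes in all these charts and for all `E`. Such charts `g` exist since `F` is not zero. -/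
def FlatDualWeb (n k : ℕ) (ω : Fin 3 → MvPolynomial (Fin 3) ℂ) (F : MvPolynomial (Fin 3) ℂ) :
    Prop :=
  ∀ g : Matrix (Fin 3) (Fin 3) ℂ, g.det ≠ 0 →
    (∃ x y : ℂ, MvPolynomial.eval (g.mulVec ![x, y, 0]) F ≠ 0) →
    (∃ (E : Type) (_ : Field E) (_ : Algebra ℂ E) (c : DualPlane E) (x : Fin (n + k) → E),
      IsSlopes g ω F c x) ∧
    ∀ (E : Type) [Field E] [Algebra ℂ E] (c : DualPlane E),
      webPolynomial g ω F c ≠ 0 ∧ (webPolynomial g ω F c).natDegree = n + k ∧
      ∀ x : Fin (n + k) → E, IsSlopes g ω F c x →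
        ∃ K : Fin (n + k) → Fin (n + k) → Fin (n + k) → E,
          (∀ i j l, i < j → j < l → ∀ K', IsBlaschkeCurvature c ![x i, x j, x l] K' ↔ K' = K i j l) ∧
          ∑ i, ∑ j, ∑ l, (if i < j ∧ j < l then K i j l else 0) = 0

open Pool.Agent.Lib.MP_5bde83_ag in
theorem linePoint_aeval (g : Matrix (Fin 3) (Fin 3) ℂ) (c : DualPlane E)
    (H : MvPolynomial (Fin 3) ℂ) :
    MvPolynomial.aeval (linePoint g c) H =
      onLine c.p c.q (MvPolynomial.aeval (pt (col g 0) (col g 1) (col g 2)) H) := by
  rw [onLine_pt]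
  rfl

open Pool.Agent.Lib.MP_5bde83_ag in
theorem webPolynomial_eq (g : Matrix (Fin 3) (Fin 3) ℂ) (ω : Fin 3 → MvPolynomial (Fin 3) ℂ)
    (F : MvPolynomial (Fin 3) ℂ) (c : DualPlane E) :
    webPolynomial g ω F c = - webPoly (-ev ω (col g 0) (col g 1) (col g 2) (col g 0))
      (ev ω (col g 0) (col g 1) (col g 2) (col g 1))
      (MvPolynomial.aeval (pt (col g 0) (col g 1) (col g 2)) F) c.p c.q := by
  have h : ∀ j, ∑ i, C (algebraMap ℂ E (g i j)) * MvPolynomial.aeval (linePoint g c) (ω i) =
      onLine c.p c.q (ev ω (col g 0) (col g 1) (col g 2) (col g j)) := by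
    intro j
    unfold ev
    rw [map_sum]
    refine Finset.sum_congr rfl fun i _ => ?_
    rw [map_mul, linePoint_aeval]
    congr 1
    simp [onLine_C, col]
  rw [webPolynomial, webPoly, tangPoly, linePoint_aeval, h, h, map_neg]
  ring

theorem toPQ (c : DualPlane E) : Pool.Agent.Lib.MP_5bde83_ag.PQ c.dp c.dq c.p c.q :=
  ⟨c.comm, c.dp_p, c.dp_q, c.dq_p, c.dq_q⟩

open Pool.Agent.Lib.MP_5bde83_ag in
/-- The dual web of every convex pre-foliation of degree `n + k ≥ 3` and co-degree `k < n + k` on
the complex projective plane is flat. -/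
theorem result (n k : ℕ) (hn : 1 ≤ n) (_hd : 3 ≤ n + k)
    (ω : Fin 3 → MvPolynomial (Fin 3) ℂ) (F : MvPolynomial (Fin 3) ℂ)
    (h : ConvexPreFoliation n k ω F) : FlatDualWeb n k ω F := by
  intro g hg hinf
  have hfol : IsFol n ω := ⟨h.foliation.homogeneous, h.foliation.euler, h.foliation.coprime⟩
  have hconv : Pool.Agent.Lib.MP_5bde83_ag.Convex ω := by
    intro p hp hw
    exact h.convex p ⟨hp, fun w hw0 => hw w hw0⟩
  have hinv : InvCurve ω F := h.invariant
  obtain ⟨ℓ, G⟩ := gdata_of_convex hfol hn hconv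
  have ht : tri (col g 0) (col g 1) (col g 2) ≠ 0 := by rw [tri_col]; exact hg
  have hinfR : infR (col g 0) (col g 1) F ≠ 0 := by
    obtain ⟨x, y, hxy⟩ := hinf
    exact infR_ne h.homogeneous g x y hxy
  constructor
  · obtain ⟨E, _, _, dp, dq, p, q, _, hcomm, h1, h2, h3, h4⟩ := exists_diff_field
    obtain ⟨x, hx, hroot⟩ := (exists_roots G hn (col g 0) (col g 1) (col g 2) ht k F h.homogeneous
      h.reduced hinv (⟨hcomm, h1, h2, h3, h4⟩ : PQ dp dq p q)).1 hinfR
    refine ⟨E, inferInstance, inferInstance, ⟨p, q, dp, dq, hcomm, h1, h2, h3, h4⟩, x, hx, ?_⟩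
    intro i
    rw [webPolynomial_eq, eval_neg, hroot i, neg_zero]
  · intro E _ _ c
    have hpq := toPQ c
    obtain ⟨hne, hdeg⟩ := webPoly_deg hfol _ _ _ ht k F h.homogeneous hinfR hpq
    rw [webPolynomial_eq]
    refine ⟨neg_ne_zero.mpr hne, by rw [natDegree_neg]; exact hdeg, ?_⟩
    rintro x ⟨hx, hroot⟩
    have hroot' : ∀ i, (webPoly (-ev ω (col g 0) (col g 1) (col g 2) (col g 0))
        (ev ω (col g 0) (col g 1) (col g 2) (col g 1))
        (MvPolynomial.aeval (pt (col g 0) (col g 1) (col g 2)) F) c.p c.q).eval (x i) = 0 := by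
      intro i
      have := hroot i
      rw [webPolynomial_eq, eval_neg, neg_eq_zero] at this
      exact this
    have hK := chart_main G hn h.homogeneous h.reduced.ne_zero hinv g hg hpq x hx hroot'
    refine ⟨fun i j l => Web.K3 c.dp c.dq (Web.sl (x i)) (Web.sl (x j)) (Web.sl (x l)), ?_, ?_⟩
    · intro i j l hij hjl K'
      have h01 : x i ≠ x j := fun e => hij.ne (hx e)
      have h12 : x j ≠ x l := fun e => hjl.ne (hx e)
      have h20 : x l ≠ x i := fun e => (hij.trans hjl).ne (hx e.symm)
      exact blaschke_iff hpq.comm ![x i, x j, x l] h01 h12 h20 K'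
    · exact hK

end

end Pool.Agent.Results.MP_5bde83_ag.Flatness
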