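import Pool.Agent.Lib.MP_5bde83_ag.StarMain
import Pool.Agent.Lib.MP_5bde83_ag.ConvG
import Pool.Agent.Lib.MP_5bde83_ag.Finish

/-!
# Trichotomy for convex foliations on the projective plane

Every convex foliation of degree `n ≥ 2` on the complex projective plane is reduced convex, or
homogeneous, or linearly conjugate to the foliation `F_1^n` given by
`y^n dx + x^n (x dy - y dx)`.
-/

namespace Pool.Agent.Results.MP_5bde83_ag.Trichotomy

open MvPolynomial

/-- A foliation of degree `n` on the complex projective plane, given by the homogeneous 1-form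
`ω 0 dx + ω 1 dy + ω 2 dz`: the coefficients are homogeneous of degree `n + 1`, have no common
factor, and `x ω 0 + y ω 1 + z ω 2 = 0`. -/
structure IsFoliation (n : ℕ) (ω : Fin 3 → MvPolynomial (Fin 3) ℂ) : Prop where
  homogeneous : ∀ j, (ω j).IsHomogeneous (n + 1)
  euler : ∑ j, X j * ω j = 0
  coprime : ∀ d, (∀ j, d ∣ ω j) → IsUnit d

/-- The linear form `ω(p)`, that is the tangent line of the foliation at a nonsingular point `p`,
as vector of coefficients. The point `p` is singular if this is zero. -/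
noncomputable def form (ω : Fin 3 → MvPolynomial (Fin 3) ℂ) (p : Fin 3 → ℂ) : Fin 3 → ℂ :=
  fun j => eval p (ω j)

/-- The line `{p : l 0 p 0 + l 1 p 1 + l 2 p 2 = 0}` is invariant by the foliation: at each of its
points `p` the linear form `ω(p)` is a multiple of `l`. -/
def InvariantLine (ω : Fin 3 → MvPolynomial (Fin 3) ℂ) (l : Fin 3 → ℂ) : Prop :=
  l ≠ 0 ∧ ∀ p : Fin 3 → ℂ, ∑ j, l j * p j = 0 → ∃ c : ℂ, form ω p = c • l

/-- `p` is an inflection point of its leaf: `p` is not singular, and for every vector `w` of the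
tangent line of the leaf at `p` the function `t ↦ ω(p + t w)(w)`, which vanishes at `t = 0`, has
derivative `∑ w_j w_k ∂ω_j/∂x_k (p) = 0` at `t = 0`; in other words, the leaf and its tangent line
have contact of order at least 3 at `p`. -/
def InflectionPoint (ω : Fin 3 → MvPolynomial (Fin 3) ℂ) (p : Fin 3 → ℂ) : Prop :=
  form ω p ≠ 0 ∧ ∀ w : Fin 3 → ℂ, ∑ j, form ω p j * w j = 0 →
    ∑ j, ∑ k, w j * w k * eval p (pderiv k (ω j)) = 0

/-- The foliation is convex: its leaves other than lines have no inflection points, i.e. at every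
inflection point of a leaf the tangent line of the leaf is an invariant line. -/
def Convex (ω : Fin 3 → MvPolynomial (Fin 3) ℂ) : Prop :=
  ∀ p : Fin 3 → ℂ, InflectionPoint ω p → InvariantLine ω (form ω p)

/-- The foliation has `3 n` pairwise different invariant lines. -/
def ReducedConvex (n : ℕ) (ω : Fin 3 → MvPolynomial (Fin 3) ℂ) : Prop :=
  ∃ l : Fin (3 * n) → Fin 3 → ℂ, (∀ i, InvariantLine ω (l i)) ∧
    ∀ i j, i ≠ j → ¬ ∃ c : ℂ, l i = c • l j

/-- Pull-back of the 1-form `ω` by the linear map `g`. -/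
noncomputable def pullback (g : Matrix (Fin 3) (Fin 3) ℂ) (ω : Fin 3 → MvPolynomial (Fin 3) ℂ) :
    Fin 3 → MvPolynomial (Fin 3) ℂ :=
  fun k => ∑ j, C (g j k) * aeval (fun i => ∑ m, C (g i m) * X m) (ω j)

/-- In suitable homogeneous coordinates the foliation is given by
`z (P dx + Q dy) - (x P + y Q) dz` with `P, Q` homogeneous of degree `n` in `x, y`, that is by
`P dx + Q dy` in the affine chart `z = 1`. -/
def Homogeneous (n : ℕ) (ω : Fin 3 → MvPolynomial (Fin 3) ℂ) : Prop :=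
  ∃ g : Matrix (Fin 3) (Fin 3) ℂ, g.det ≠ 0 ∧ ∃ P Q : MvPolynomial (Fin 2) ℂ,
    P.IsHomogeneous n ∧ Q.IsHomogeneous n ∧
    pullback g ω = ![X 2 * rename ![0, 1] P, X 2 * rename ![0, 1] Q,
      - (X 0 * rename ![0, 1] P + X 1 * rename ![0, 1] Q)]

/-- In suitable homogeneous coordinates the foliation is given by the homogenization
`(y^n z - x^n y) dx + x^(n+1) dy - x y^n dz` of `y^n dx + x^n (x dy - y dx)`. -/
def ConjugateToF1 (n : ℕ) (ω : Fin 3 → MvPolynomial (Fin 3) ℂ) : Prop :=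
  ∃ g : Matrix (Fin 3) (Fin 3) ℂ, g.det ≠ 0 ∧ ∃ c : ℂ, c ≠ 0 ∧
    pullback g ω = ![C c * (X 1 ^ n * X 2 - X 0 ^ n * X 1), C c * X 0 ^ (n + 1),
      - (C c * (X 0 * X 1 ^ n))]

open Pool.Agent.Lib.MP_5bde83_ag in
theorem pullback_eq_pb (ω : Fin 3 → MvPolynomial (Fin 3) ℂ) (e1 e2 s : Fin 3 → ℂ) :
    pullback (Matrix.of fun j k => ![e1 j, e2 j, s j] k) ω = pb ω e1 e2 s := by
  have hlin : (fun i => ∑ m, C ((Matrix.of fun j k => ![e1 j, e2 j, s j] k) i m) * X m :
      Fin 3 → MvPolynomial (Fin 3) ℂ) = lin3 e1 e2 s := by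
    funext i
    simp [lin3, Fin.sum_univ_three]
  funext k
  unfold pullback
  rw [hlin]
  fin_cases k
  · simp [pb, ev3]
  · simp [pb, ev3]
  · simp [pb, ev3]

open Pool.Agent.Lib.MP_5bde83_ag in
theorem det_eq_tri (e1 e2 s : Fin 3 → ℂ) :
    (Matrix.of fun j k => ![e1 j, e2 j, s j] k).det = tri e1 e2 s := by
  rw [Matrix.det_fin_three]
  simp [tri]
  ring

/-- Every convex foliation of degree `n ≥ 2` on the complex projective plane is reduced convex,
homogeneous or linearly conjugate to `F_1^n`. -/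
theorem result (n : ℕ) (hn : 2 ≤ n) (ω : Fin 3 → MvPolynomial (Fin 3) ℂ)
    (h : IsFoliation n ω) (hc : Convex ω) :
    ReducedConvex n ω ∨ Homogeneous n ω ∨ ConjugateToF1 n ω := by
  have hfol : Pool.Agent.Lib.MP_5bde83_ag.IsFol n ω := ⟨h.homogeneous, h.euler, h.coprime⟩
  have hconv : Pool.Agent.Lib.MP_5bde83_ag.Convex ω := by
    intro p hp hw
    exact hc p ⟨hp, fun w hw0 => hw w hw0⟩
  obtain ⟨ℓ, G⟩ := Pool.Agent.Lib.MP_5bde83_ag.gdata_of_convex hfol (by omega) hconv
  by_cases hpar : ∃ i j, i ≠ j ∧ ∃ c : ℂ, ℓ i = c • ℓ j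
  · right
    obtain ⟨i, j, hij, c, hcc⟩ := hpar
    have hstar := G.star (by omega) j i (Ne.symm hij) (by
      intro p hp
      rw [hcc, Pool.Agent.Lib.MP_5bde83_ag.smul_dot, hp, mul_zero])
    rcases Pool.Agent.Lib.MP_5bde83_ag.finish G hn hstar with h1 | h1
    · left
      obtain ⟨e1, e2, s, ht, P, Q, hP, hQ, hpb⟩ := h1
      exact ⟨_, by rw [det_eq_tri]; exact ht, P, Q, hP, hQ, by rw [pullback_eq_pb]; exact hpb⟩
    · right
      obtain ⟨e1, e2, s, ht, c, hc0, hpb⟩ := h1
      exact ⟨_, by rw [det_eq_tri]; exact ht, c, hc0, by rw [pullback_eq_pb]; exact hpb⟩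
  · left
    push Not at hpar
    refine ⟨ℓ, fun i => G.inv i, ?_⟩
    intro i j hij
    rintro ⟨c, hcc⟩
    exact hpar i j hij c hcc

end Pool.Agent.Results.MP_5bde83_ag.Trichotomy
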